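import Mathlib
import Pool.Agent.H706R3.WeakAlg

/-!
Problem MP_d80673_al, Q1: the class `K` of representable weakening implication semigroups is
not a discriminator variety, and neither is any variety containing `K`.
-/

namespace Pool.Agent.Results.MP_d80673_al.NoDiscriminator

open Pool.Agent.H706R3.WeakAlg

universe u

/-- The two-element algebra: Boolean implication, and composition constantly `true`. -/
def twoOps : Ops (ULift.{u} Bool) where
  imp a b := ⟨!a.down || b.down⟩
  comp _ _ := ⟨true⟩

/-- The three-element antichain. -/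
@[reducible] def anti : PartialOrder (ULift.{u} (Fin 3)) where
  le := fun a b => a = b
  lt := fun a b => a = b ∧ ¬ b = a
  lt_iff_le_not_ge := fun _ _ => Iff.rfl
  le_refl := fun _ => rfl
  le_trans := fun _ _ _ h h' => h.trans h'
  le_antisymm := fun _ _ h _ => h

theorem two_inK : InK (ULift.{u} Bool) twoOps := by
  refine ⟨⟨⟨true⟩⟩, PUnit, fun _ => ULift (Fin 3), fun _ => anti,
    fun a _ => ⟨fun x y => x ≠ y ∨ a.down = true, ?_⟩, ?_, ?_, ?_⟩
  · intro x' x y y' hx h hy
    have hx' : x' = x := hx
    have hy' : y = y' := hy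
    subst hx'; subst hy'; exact h
  · intro a b hab
    have h := congrArg Subtype.val (congrFun hab PUnit.unit)
    have h' := congrFun (congrFun h ⟨0⟩) ⟨0⟩
    simp only [ne_eq, not_true_eq_false, false_or, eq_iff_iff] at h'
    rcases a with ⟨a⟩; rcases b with ⟨b⟩
    cases a <;> cases b <;> simp_all
  · intro a b i
    apply Subtype.ext
    funext x y
    apply propext
    constructor
    · intro h x' y' hx hy h1
      have hx' : x' = x := hx
      have hy' : y = y' := hy
      subst hx'; subst hy'
      rcases a with ⟨a⟩; rcases b with ⟨b⟩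
      cases a <;> cases b <;> simp_all [twoOps]
    · intro h
      have h0 := h x y rfl rfl
      rcases a with ⟨a⟩; rcases b with ⟨b⟩
      cases a <;> cases b <;> simp_all [twoOps]
  · intro a b i
    apply Subtype.ext
    funext x y
    apply propext
    constructor
    · intro _
      have key : ∃ z : ULift.{u} (Fin 3), x ≠ z ∧ z ≠ y := by
        rcases x with ⟨x⟩; rcases y with ⟨y⟩
        have : ∀ x y : Fin 3, ∃ z : Fin 3, x ≠ z ∧ z ≠ y := by decide
        obtain ⟨z, h1, h2⟩ := this x y
        exact ⟨⟨z⟩, fun h => h1 (congrArg ULift.down h), fun h => h2 (congrArg ULift.down h)⟩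
      obtain ⟨z, h1, h2⟩ := key
      exact ⟨z, Or.inl h1, Or.inl h2⟩
    · intro _
      exact Or.inr rfl

/-- Every term operation of the two-element algebra lies above one of its variables. -/
theorem term_ge_var {X : Type} (t : Term X) :
    ∃ x : X, ∀ e : X → ULift.{u} Bool, (e x).down = true → (t.eval twoOps e).down = true := by
  induction t with
  | var x => exact ⟨x, fun e h => h⟩
  | imp s t _ iht =>
    obtain ⟨x, hx⟩ := iht
    refine ⟨x, fun e h => ?_⟩
    simp only [Term.eval, twoOps, Bool.or_eq_true]
    right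
    exact hx e h
  | comp s t ihs _ =>
    obtain ⟨x, _⟩ := ihs
    exact ⟨x, fun e _ => rfl⟩

/-- The class of algebras satisfying the two Mal'cev identities for `d`. -/
def Malcev (d : Term (Fin 3)) (A : Type u) (o : Ops A) : Prop :=
  Nonempty A ∧ ∀ a b : A, d.eval o ![a, a, b] = b ∧ d.eval o ![b, a, a] = b

theorem malcev_variety (d : Term (Fin 3)) : IsVariety (Malcev.{u} d) where
  nonempty := fun _ _ h => h.1
  homImage := by
    intro A B o o' f h hf hs
    refine ⟨h.1.map f, fun a b => ?_⟩
    obtain ⟨a, rfl⟩ := hs a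
    obtain ⟨b, rfl⟩ := hs b
    obtain ⟨h1, h2⟩ := h.2 a b
    constructor
    · conv_rhs => rw [← h1]
      rw [Term.eval_hom hf]
      congr 1
      funext i; fin_cases i <;> rfl
    · conv_rhs => rw [← h2]
      rw [Term.eval_hom hf]
      congr 1
      funext i; fin_cases i <;> rfl
  sub := by
    intro A B o o' f h hne hf hi
    refine ⟨hne, fun a b => ?_⟩
    obtain ⟨h1, h2⟩ := h.2 (f a) (f b)
    constructor
    · apply hi
      rw [Term.eval_hom hf]
      refine Eq.trans ?_ h1
      congr 1
      funext i; fin_cases i <;> rfl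
    · apply hi
      rw [Term.eval_hom hf]
      refine Eq.trans ?_ h2
      congr 1
      funext i; fin_cases i <;> rfl
  prod := by
    intro J A o h
    refine ⟨Classical.nonempty_pi.2 fun j => (h j).1, fun a b => ?_⟩
    have hj : ∀ j, IsHom (piOps o) (o j) (fun x : ∀ j, A j => x j) :=
      fun j => ⟨fun _ _ => rfl, fun _ _ => rfl⟩
    constructor
    · funext j
      have h1 := ((h j).2 (a j) (b j)).1
      have := Term.eval_hom (hj j) ![a, a, b] d
      refine Eq.trans this (Eq.trans ?_ h1)
      congr 1
      funext i; fin_cases i <;> rfl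
    · funext j
      have h1 := ((h j).2 (a j) (b j)).2
      have := Term.eval_hom (hj j) ![b, a, a] d
      refine Eq.trans this (Eq.trans ?_ h1)
      congr 1
      funext i; fin_cases i <;> rfl

/-- No variety containing `K` is generated by a class with a common discriminator term. -/
theorem no_discriminator (V : (A : Type u) → Ops A → Prop) (hV : ∀ A o, InK A o → V A o) :
    ¬ ∃ (C : (A : Type u) → Ops A → Prop) (d : Term (Fin 3)),
        IsGeneratedBy V C ∧ IsDiscriminatorOn d C := by
  rintro ⟨C, d, ⟨hvar, hCV, hmin⟩, hd⟩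
  have hC : ∀ A o, C A o → Malcev d A o := by
    intro A o h
    refine ⟨hvar.nonempty A o (hCV A o h), fun a b => ⟨((hd A o h a a b).1 rfl), ?_⟩⟩
    by_cases hab : b = a
    · have := (hd A o h b a a).1 hab
      rw [this, hab]
    · exact (hd A o h b a a).2 hab
  have hM : Malcev d (ULift.{u} Bool) twoOps :=
    hmin _ (malcev_variety d) hC _ _ (hV _ _ two_inK)
  obtain ⟨x, hx⟩ := term_ge_var.{u} d
  have h1 := (hM.2 ⟨true⟩ ⟨false⟩).1
  have h2 := (hM.2 ⟨true⟩ ⟨false⟩).2
  have k1 : x ≠ 0 := by
    rintro rfl
    have := hx ![⟨true⟩, ⟨true⟩, ⟨false⟩] rfl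
    rw [h1] at this
    exact absurd this (by decide)
  have k2 : x ≠ 1 := by
    rintro rfl
    have := hx ![⟨true⟩, ⟨true⟩, ⟨false⟩] rfl
    rw [h1] at this
    exact absurd this (by decide)
  have k3 : x ≠ 2 := by
    rintro rfl
    have := hx ![⟨false⟩, ⟨true⟩, ⟨true⟩] rfl
    rw [h2] at this
    exact absurd this (by decide)
  fin_cases x
  · exact k1 rfl
  · exact k2 rfl
  · exact k3 rfl

/-- **The negated form of Q1.**  Some homomorphic image of a member of `K` lies outside `K`, or
`K` is a variety but is not generated by any class admitting a common discriminator term.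
Moreover no variety that contains `K` (in particular the variety generated by `K`) is generated
by a class admitting a common discriminator term. -/
theorem result :
    ((∃ (A B : Type u) (o : Ops A) (o' : Ops B) (f : A → B),
        InK A o ∧ IsHom o o' f ∧ Function.Surjective f ∧ ¬ InK B o') ∨
      (IsVariety (InK.{u}) ∧ ¬ ∃ (C : (A : Type u) → Ops A → Prop) (d : Term (Fin 3)),
        IsGeneratedBy InK.{u} C ∧ IsDiscriminatorOn d C)) ∧
    (∀ V : (A : Type u) → Ops A → Prop, IsVariety V → (∀ A o, InK A o → V A o) →
      ¬ ∃ (C : (A : Type u) → Ops A → Prop) (d : Term (Fin 3)),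
        IsGeneratedBy V C ∧ IsDiscriminatorOn d C) := by
  refine ⟨?_, fun V _ hV => no_discriminator V hV⟩
  by_cases h : ∃ (A B : Type u) (o : Ops A) (o' : Ops B) (f : A → B),
        InK A o ∧ IsHom o o' f ∧ Function.Surjective f ∧ ¬ InK B o'
  · exact Or.inl h
  · right
    refine ⟨?_, no_discriminator _ fun _ _ h => h⟩
    refine ⟨fun A o h => h.1, ?_, ?_, ?_⟩
    · intro A B o o' f hA hf hs
      by_contra hB
      exact h ⟨A, B, o, o', f, hA, hf, hs, hB⟩
    · intro A B o o' f hA hne hf hi
      exact hA.sub hne hf hi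
    · intro J A o hA
      exact InK.prod hA

end Pool.Agent.Results.MP_d80673_al.NoDiscriminator
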