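import Mathlib
import Pool.Agent.H706R3.WeakAlg

/-!
Problem MP_d80673_al, Q2: a constant for the empty relation can be eliminated from the
equational theory of representable weakening implication semigroups, by an explicit
translation.  The same translation works over every class of posets, for instance over the
antichains (ordinary binary relations).
-/

namespace Pool.Agent.Results.MP_d80673_al.ZeroElimination

open Pool.Agent.H706R3.WeakAlg

universe u

/-- Terms in `→`, `;` and a constant `0` for the bottom element. -/
inductive Term0 (X : Type) : Type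
  | var : X → Term0 X
  | zero : Term0 X
  | imp : Term0 X → Term0 X → Term0 X
  | comp : Term0 X → Term0 X → Term0 X

/-- The empty relation. -/
def empty (P : Type u) (ord : PartialOrder P) : Weak P ord :=
  ⟨fun _ _ => False, fun _ _ _ _ _ h _ => h⟩

/-- Value of a term with `0` in `W(P)`; `0` is the empty relation. -/
def Term0.eval {X : Type} {P : Type u} {ord : PartialOrder P} (e : X → Weak P ord) :
    Term0 X → Weak P ord
  | .var x => e x
  | .zero => empty P ord
  | .imp s t => (weakOps P ord).imp (s.eval e) (t.eval e)
  | .comp s t => (weakOps P ord).comp (s.eval e) (t.eval e)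

/-- Replace `0` by a new variable (`none`). -/
def replaceZero {X : Type} : Term0 X → Term (Option X)
  | .var x => .var (some x)
  | .zero => .var none
  | .imp s t => .imp (replaceZero s) (replaceZero t)
  | .comp s t => .comp (replaceZero s) (replaceZero t)

/-- The term `1 ; z ; 1`, where `z` is the new variable and `1 = z → z`. -/
def nonzeroTest (X : Type) : Term (Option X) :=
  .comp (.comp (.imp (.var none) (.var none)) (.var none)) (.imp (.var none) (.var none))

/-- The translation `s ↦ ((1;z;1) → s[z/0]) → s[z/0]`. -/
def translate {X : Type} (s : Term0 X) : Term (Option X) :=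
  .imp (.imp (nonzeroTest X) (replaceZero s)) (replaceZero s)

/-- The algebra `(A, o)` is isomorphic to a (nonempty) subalgebra of a direct product of
algebras `W(P)` with `P` in the class `C` of posets. -/
def InKOf (C : (P : Type u) → PartialOrder P → Prop) (A : Type u) (o : Ops A) : Prop :=
  Nonempty A ∧ ∃ (I : Type u) (P : I → Type u) (ord : ∀ i, PartialOrder (P i))
    (f : A → ∀ i, Weak (P i) (ord i)), (∀ i, C (P i) (ord i)) ∧ Function.Injective f ∧
      (∀ a b i, f (o.imp a b) i = (weakOps (P i) (ord i)).imp (f a i) (f b i)) ∧
      (∀ a b i, f (o.comp a b) i = (weakOps (P i) (ord i)).comp (f a i) (f b i))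

theorem replaceZero_eval {X : Type} {P : Type u} {ord : PartialOrder P}
    (e : Option X → Weak P ord) (h : e none = empty P ord) (s : Term0 X) :
    (replaceZero s).eval (weakOps P ord) e = s.eval (fun x => e (some x)) := by
  induction s with
  | var x => rfl
  | zero => exact h
  | imp s t ihs iht => simp only [replaceZero, Term.eval, Term0.eval, ihs, iht]
  | comp s t ihs iht => simp only [replaceZero, Term.eval, Term0.eval, ihs, iht]

theorem imp_val {P : Type u} {ord : PartialOrder P} (R S : Weak P ord) (x y : P) :
    ((weakOps P ord).imp R S).1 x y ↔ ∀ x' y', x' ≤ x → y ≤ y' → R.1 x' y' → S.1 x' y' :=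
  Iff.rfl

theorem test_zero {X : Type} {P : Type u} {ord : PartialOrder P} (e : Option X → Weak P ord)
    (h : e none = empty P ord) (x y : P) :
    ¬ ((nonzeroTest X).eval (weakOps P ord) e).1 x y := by
  rintro ⟨z, ⟨w, _, hw⟩, _⟩
  simp only [Term.eval] at hw
  rw [h] at hw
  exact hw

theorem test_nonzero {X : Type} {P : Type u} {ord : PartialOrder P} (e : Option X → Weak P ord)
    (h : e none ≠ empty P ord) (x y : P) :
    ((nonzeroTest X).eval (weakOps P ord) e).1 x y := by
  have : ∃ p q, (e none).1 p q := by
    by_contra hc
    push Not at hc
    apply h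
    apply Subtype.ext
    funext p q
    exact propext ⟨fun hpq => (hc p q hpq).elim, fun hpq => hpq.elim⟩
  obtain ⟨p, q, hpq⟩ := this
  refine ⟨q, ⟨p, ?_, hpq⟩, ?_⟩
  · intro _ _ _ _ h; exact h
  · intro _ _ _ _ h; exact h

theorem translate_zero {X : Type} {P : Type u} {ord : PartialOrder P}
    (e : Option X → Weak P ord) (h : e none = empty P ord) (s : Term0 X) :
    (translate s).eval (weakOps P ord) e = s.eval (fun x => e (some x)) := by
  rw [← replaceZero_eval e h s]
  apply Subtype.ext
  funext x y
  apply propext
  constructor
  · intro hxy
    refine hxy x y le_rfl le_rfl ?_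
    intro x' y' _ _ ht
    exact absurd ht (test_zero e h x' y')
  · intro hxy x' y' hx hy _
    exact ((replaceZero s).eval (weakOps P ord) e).2 x' x y y' hx hxy hy

theorem translate_nonzero {X : Type} {P : Type u} {ord : PartialOrder P}
    (e : Option X → Weak P ord) (h : e none ≠ empty P ord) (s : Term0 X) (x y : P) :
    ((translate s).eval (weakOps P ord) e).1 x y := by
  intro x' y' _ _ hi
  exact hi x' y' le_rfl le_rfl (test_nonzero e h x' y')

theorem valid_iff {X : Type} (C : (P : Type u) → PartialOrder P → Prop) (s t : Term0 X) :
    (∀ (P : Type u) (ord : PartialOrder P), C P ord → ∀ e : X → Weak P ord,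
        s.eval e = t.eval e) ↔
    (∀ (P : Type u) (ord : PartialOrder P), C P ord → ∀ e : Option X → Weak P ord,
        (translate s).eval (weakOps P ord) e = (translate t).eval (weakOps P ord) e) := by
  constructor
  · intro hv P ord hP e
    by_cases h : e none = empty P ord
    · rw [translate_zero e h, translate_zero e h]
      exact hv P ord hP _
    · apply Subtype.ext
      funext x y
      exact propext ⟨fun _ => translate_nonzero e h t x y, fun _ => translate_nonzero e h s x y⟩
  · intro hv P ord hP e
    have := hv P ord hP (fun x => Option.elim x (empty P ord) e)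
    rwa [translate_zero _ rfl, translate_zero _ rfl] at this

theorem inK_valid {Y : Type} (C : (P : Type u) → PartialOrder P → Prop) (s t : Term Y) :
    (∀ (A : Type u) (o : Ops A), InKOf C A o → ∀ e : Y → A, s.eval o e = t.eval o e) ↔
    (∀ (P : Type u) (ord : PartialOrder P), C P ord → ∀ e : Y → Weak P ord,
        s.eval (weakOps P ord) e = t.eval (weakOps P ord) e) := by
  constructor
  · intro h P ord hP e
    refine h (Weak P ord) (weakOps P ord) ?_ e
    refine ⟨⟨empty P ord⟩, PUnit, fun _ => P, fun _ => ord, fun a _ => a, fun _ => hP, ?_,
      fun _ _ _ => rfl, fun _ _ _ => rfl⟩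
    intro a b hab
    exact congrFun hab PUnit.unit
  · rintro h A o ⟨-, I, P, ord, f, hC, hinj, h1, h2⟩ e
    apply hinj
    funext i
    have hf : IsHom o (weakOps (P i) (ord i)) (fun a => f a i) :=
      ⟨fun a b => h1 a b i, fun a b => h2 a b i⟩
    have hs := Term.eval_hom hf e s
    have ht := Term.eval_hom hf e t
    have := h (P i) (ord i) (hC i) (fun y => f (e y) i)
    exact hs.trans (this.trans ht.symm)

/-- **Elimination of the constant `0`.**  For every class `C` of posets and all terms `s`, `t`
in `→`, `;`, `0`: the equation `s = t` holds in all `(W(P), →, ;, ∅)`, `P ∈ C`, if and only if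
the `0`-free equation `translate s = translate t` holds in every algebra of
`SP {W(P) | P ∈ C}`. -/
theorem result (C : (P : Type u) → PartialOrder P → Prop) (s t : Term0 ℕ) :
    (∀ (P : Type u) (ord : PartialOrder P), C P ord → ∀ e : ℕ → Weak P ord,
        s.eval e = t.eval e) ↔
    (∀ (A : Type u) (o : Ops A), InKOf C A o → ∀ e : Option ℕ → A,
        (translate s).eval o e = (translate t).eval o e) := by
  rw [inK_valid C (translate s) (translate t)]
  exact valid_iff C s t

end Pool.Agent.Results.MP_d80673_al.ZeroElimination
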